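import Mathlib

/-! # Project LQ (helper145), job CONVQ: quadratic polynomials modulo primes -/

set_option autoImplicit false

namespace Pool.Agent.Q241.LQ

open Finset

/-- the number of roots of a quadratic polynomial modulo a prime -/
lemma root_count {p : ℕ} (hp : p.Prime) (h2 : p ≠ 2) {a b c : ℤ} (ha : ¬ (p : ℤ) ∣ a) :
    (((range p).filter fun n : ℕ => (p : ℤ) ∣ a * (n : ℤ) ^ 2 + b * n + c).card : ℤ) =
      1 + jacobiSym (b ^ 2 - 4 * a * c) p := by
  classical
  haveI : Fact p.Prime := ⟨hp⟩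
  have h1 := legendreSym.card_sqrts p h2 (b ^ 2 - 4 * a * c)
  rw [← jacobiSym.legendreSym.to_jacobiSym, add_comm, ← h1]
  congr 1
  have ha' : (a : ZMod p) ≠ 0 := by
    rw [Ne, ZMod.intCast_zmod_eq_zero_iff_dvd]
    exact ha
  have h20 : (2 : ZMod p) ≠ 0 := by
    have h3 : ((2 : ℤ) : ZMod p) ≠ 0 := by
      rw [Ne, ZMod.intCast_zmod_eq_zero_iff_dvd]
      intro h4
      have h5 : p ∣ 2 := by exact_mod_cast h4
      exact h2 ((Nat.prime_dvd_prime_iff_eq hp Nat.prime_two).mp h5)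
    simpa using h3
  have h2a : (2 * a : ZMod p) ≠ 0 := mul_ne_zero h20 ha'
  refine card_bij (fun n _ => 2 * (a : ZMod p) * (n : ZMod p) + b) ?_ ?_ ?_
  · intro n hn
    rw [mem_filter] at hn
    have h3 := (ZMod.intCast_zmod_eq_zero_iff_dvd _ p).mpr hn.2
    push_cast at h3
    rw [Set.mem_toFinset, Set.mem_ofPred_eq]
    push_cast
    linear_combination 4 * (a : ZMod p) * h3
  · intro n hn m hm h
    rw [mem_filter, mem_range] at hn hm
    have h3 : (2 * a : ZMod p) * n = 2 * a * m := by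
      linear_combination h
    have h4 := mul_left_cancel₀ h2a h3
    rw [ZMod.natCast_eq_natCast_iff'] at h4
    rwa [Nat.mod_eq_of_lt hn.1, Nat.mod_eq_of_lt hm.1] at h4
  · intro x hx
    rw [Set.mem_toFinset, Set.mem_ofPred_eq] at hx
    push_cast at hx
    refine ⟨((x - b) / (2 * a)).val, ?_, ?_⟩
    · rw [mem_filter, mem_range]
      refine ⟨ZMod.val_lt _, ?_⟩
      rw [← ZMod.intCast_zmod_eq_zero_iff_dvd]
      push_cast
      rw [ZMod.natCast_zmod_val]
      field_simp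
      linear_combination hx
    · rw [ZMod.natCast_zmod_val]
      field_simp
      ring

/-- common zeros modulo primes -/
lemma common {a b c a' b' c' : ℤ} (hΔ : ¬ IsSquare (b ^ 2 - 4 * a * c))
    (hprop : ¬ (a' * b = a * b' ∧ a' * c = a * c')) :
    ∃ R : ℤ, R ≠ 0 ∧ ∀ p n : ℤ, p ∣ a * n ^ 2 + b * n + c → p ∣ a' * n ^ 2 + b' * n + c' → p ∣ R := by
  set β := a' * b - a * b' with hβ
  set γ := a' * c - a * c' with hγ
  by_cases h0 : β = 0
  · have hγ0 : γ ≠ 0 := by
      intro h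
      exact hprop ⟨by linarith, by linarith⟩
    refine ⟨γ, hγ0, fun p n h1 h2 => ?_⟩
    have h3 : γ = a' * (a * n ^ 2 + b * n + c) - a * (a' * n ^ 2 + b' * n + c') - β * n := by
      rw [hβ, hγ]
      ring
    rw [h3, h0, zero_mul, sub_zero]
    exact dvd_sub (Dvd.dvd.mul_left h1 _) (Dvd.dvd.mul_left h2 _)
  · refine ⟨a * γ ^ 2 - b * β * γ + c * β ^ 2, ?_, fun p n h1 h2 => ?_⟩
    · intro hR
      have h3 : β ^ 2 * (b ^ 2 - 4 * a * c) = (2 * a * γ - b * β) ^ 2 := by
        linear_combination (-4 * a) * hR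
      have h4 : β ^ 2 ∣ (2 * a * γ - b * β) ^ 2 := Dvd.intro _ h3
      have h5 := (Int.pow_dvd_pow_iff two_ne_zero).mp h4
      obtain ⟨t, ht⟩ := h5
      rw [ht] at h3
      have h6 : β ^ 2 ≠ 0 := pow_ne_zero 2 h0
      have h7 : b ^ 2 - 4 * a * c = t * t := by
        refine mul_left_cancel₀ h6 ?_
        rw [h3]
        ring
      exact hΔ ⟨t, h7⟩
    · have h3 : p ∣ β * n + γ := by
        have h4 : β * n + γ = a' * (a * n ^ 2 + b * n + c) - a * (a' * n ^ 2 + b' * n + c') := by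
          rw [hβ, hγ]
          ring
        rw [h4]
        exact dvd_sub (Dvd.dvd.mul_left h1 _) (Dvd.dvd.mul_left h2 _)
      have h5 : a * γ ^ 2 - b * β * γ + c * β ^ 2 = β ^ 2 * (a * n ^ 2 + b * n + c) -
          (β * n + γ) * (a * (β * n + γ) - 2 * a * γ + b * β) := by ring
      rw [h5]
      exact dvd_sub (Dvd.dvd.mul_left h1 _) (Dvd.dvd.mul_right h3 _)

lemma eval_two {q : Polynomial ℤ} (h : q.natDegree = 2) (n : ℤ) :
    q.eval n = q.coeff 2 * n ^ 2 + q.coeff 1 * n + q.coeff 0 := by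
  rw [Polynomial.eval_eq_sum_range, h]
  simp [Finset.sum_range_succ]
  ring

/-- a logarithm -/
lemma log_one_sub {t : ℝ} (h : |t| ≤ 1 / 2) : |Real.log (1 - t) + t| ≤ 2 * t ^ 2 := by
  have h3 := Real.abs_log_sub_add_sum_range_le (show |t| < 1 by linarith) 1
  simp only [range_one, sum_singleton, zero_add, pow_one, Nat.cast_zero, div_one] at h3
  rw [add_comm]
  refine h3.trans ?_
  rw [div_le_iff₀ (by linarith)]
  have h4 : |t| ^ (1 + 1) = t ^ 2 := by
    rw [show 1 + 1 = 2 from rfl, sq_abs]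
  rw [h4]
  nlinarith [sq_nonneg t]

end Pool.Agent.Q241.LQ
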