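import Pool.Agent.Q145.LQ.Stm2
import Pool.Agent.Q241.LQ.Quad
import Pool.Agent.W468.CFProd

/-! # Project LQ (helper145), job CONVQ: the singular series of a fixed system converges -/

set_option autoImplicit false

namespace Pool.Agent.Q241.LQ

open Finset Filter Topology
open Pool.Agent.Q145.LQ
open Pool.Agent.W468.ConjF (SJ SJ_cauchy js_abs)

/-- the discriminants -/
def dsc {K : ℕ} (q : Fin K → Polynomial ℤ) (s : Fin K → ℕ) (i : Fin K) : ℤ :=
  (q i).coeff 1 ^ 2 - 4 * (q i).coeff 2 * ((q i).coeff 0 + s i)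

/-- for large primes the numbers of roots add up -/
lemma nu_large {K : ℕ} (q : Fin K → Polynomial ℤ) (s : Fin K → ℕ) (hdeg : ∀ i, (q i).natDegree = 2)
    (hΔ : ∀ i, ¬ IsSquare ((q i).coeff 1 ^ 2 - 4 * (q i).coeff 2 * ((q i).coeff 0 + s i)))
    (hprop : ∀ i j, i ≠ j → ¬ ∃ a b : ℤ, a ≠ 0 ∧ b ≠ 0 ∧
      Polynomial.C a * (q i + Polynomial.C (s i : ℤ)) = Polynomial.C b * (q j + Polynomial.C (s j : ℤ))) :
    ∃ z : ℕ, ∀ p : ℕ, p.Prime → z < p → (nuQ q s p : ℤ) = ∑ i, (1 + jacobiSym (dsc q s i) p) := by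
  classical
  have hlc : ∀ i, (q i).coeff 2 ≠ 0 := by
    intro i
    have h1 : q i ≠ 0 := by
      intro h
      have := hdeg i
      rw [h, Polynomial.natDegree_zero] at this
      omega
    have h2 := Polynomial.leadingCoeff_ne_zero.mpr h1
    rw [Polynomial.leadingCoeff, hdeg i] at h2
    exact h2
  have hev : ∀ i (n : ℤ), (q i).eval n + s i =
      (q i).coeff 2 * n ^ 2 + (q i).coeff 1 * n + ((q i).coeff 0 + s i) := by
    intro i n
    rw [eval_two (hdeg i)]
    ring
  have hR : ∀ i j, ∃ R : ℤ, R ≠ 0 ∧ (i ≠ j → ∀ p n : ℤ, p ∣ (q i).eval n + s i → p ∣ (q j).eval n + s j →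
      p ∣ R) := by
    intro i j
    by_cases hij : i = j
    · exact ⟨1, one_ne_zero, fun h => absurd hij h⟩
    · have hnp : ¬ ((q j).coeff 2 * (q i).coeff 1 = (q i).coeff 2 * (q j).coeff 1 ∧
          (q j).coeff 2 * ((q i).coeff 0 + s i) = (q i).coeff 2 * ((q j).coeff 0 + s j)) := by
        rintro ⟨h1, h2⟩
        refine hprop i j hij ⟨(q j).coeff 2, (q i).coeff 2, hlc j, hlc i, ?_⟩
        ext m
        rw [Polynomial.coeff_C_mul, Polynomial.coeff_C_mul, Polynomial.coeff_add, Polynomial.coeff_add]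
        rcases m with _ | _ | _ | m
        · rw [Polynomial.coeff_C_zero, Polynomial.coeff_C_zero]
          exact h2
        · rw [Polynomial.coeff_C_ne_zero (by norm_num), Polynomial.coeff_C_ne_zero (by norm_num), add_zero, add_zero]
          exact h1
        · rw [Polynomial.coeff_C_ne_zero (by norm_num), Polynomial.coeff_C_ne_zero (by norm_num), add_zero, add_zero]
          exact mul_comm _ _
        · have c1 : (q i).coeff (m + 1 + 1 + 1) = 0 :=
            Polynomial.coeff_eq_zero_of_natDegree_lt (by rw [hdeg i]; omega)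
          have c2 : (q j).coeff (m + 1 + 1 + 1) = 0 :=
            Polynomial.coeff_eq_zero_of_natDegree_lt (by rw [hdeg j]; omega)
          rw [Polynomial.coeff_C_ne_zero (by omega), Polynomial.coeff_C_ne_zero (by omega), add_zero, add_zero,
            c1, c2, mul_zero, mul_zero]
      obtain ⟨R, hR0, hR⟩ := common (hΔ i) hnp
      refine ⟨R, hR0, fun _ p n h1 h2 => hR p n ?_ ?_⟩
      · rw [← hev]
        exact h1
      · rw [← hev]
        exact h2
  choose R hR0 hR using hR
  refine ⟨2 + ∑ i, ((q i).coeff 2).natAbs + ∑ i, ∑ j, (R i j).natAbs, fun p hp hz => ?_⟩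
  have hpa : ∀ i, ¬ (p : ℤ) ∣ (q i).coeff 2 := by
    intro i h
    have h1 : p ∣ ((q i).coeff 2).natAbs := Int.natCast_dvd.mp h
    have h2 := Nat.le_of_dvd (Int.natAbs_pos.mpr (hlc i)) h1
    have h3 : ((q i).coeff 2).natAbs ≤ ∑ i, ((q i).coeff 2).natAbs :=
      single_le_sum (f := fun i => ((q i).coeff 2).natAbs) (fun _ _ => Nat.zero_le _) (mem_univ i)
    omega
  have hpR : ∀ i j, ¬ (p : ℤ) ∣ R i j := by
    intro i j h
    have h1 : p ∣ (R i j).natAbs := Int.natCast_dvd.mp h
    have h2 := Nat.le_of_dvd (Int.natAbs_pos.mpr (hR0 i j)) h1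
    have h3 : (R i j).natAbs ≤ ∑ j, (R i j).natAbs :=
      single_le_sum (f := fun j => (R i j).natAbs) (fun _ _ => Nat.zero_le _) (mem_univ j)
    have h4 : ∑ j, (R i j).natAbs ≤ ∑ i, ∑ j, (R i j).natAbs :=
      single_le_sum (f := fun i => ∑ j, (R i j).natAbs) (fun _ _ => Nat.zero_le _) (mem_univ i)
    omega
  have hset : (range p).filter (fun n : ℕ => ∃ i, (p : ℤ) ∣ (q i).eval (n : ℤ) + s i) =
      univ.biUnion fun i => (range p).filter fun n : ℕ => (p : ℤ) ∣ (q i).eval (n : ℤ) + s i := by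
    ext n
    simp only [mem_filter, mem_biUnion, mem_univ, true_and]
    constructor
    · rintro ⟨h1, i, h2⟩
      exact ⟨i, h1, h2⟩
    · rintro ⟨i, h1, h2⟩
      exact ⟨h1, i, h2⟩
  unfold nuQ
  rw [hset, card_biUnion]
  · push_cast
    refine sum_congr rfl fun i _ => ?_
    have h1 := root_count (b := (q i).coeff 1) (c := (q i).coeff 0 + s i) hp (by omega) (hpa i)
    unfold dsc
    rw [← h1]
    congr 2
    ext n
    simp only [mem_filter]
    rw [hev]
  · intro i _ j _ hij
    change Disjoint _ _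
    rw [disjoint_left]
    intro n h1 h2
    rw [mem_filter] at h1 h2
    exact hpR i j (hR i j hij p n h1.2 h2.2)

lemma loc_pos {K : ℕ} (q : Fin K → Polynomial ℤ) (s : Fin K → ℕ) (ha : AdmQ q s) {p : ℕ} (hp : p.Prime) :
    0 < locQ q s p := by
  have hp1 : (1 : ℝ) < p := by exact_mod_cast hp.one_lt
  have h1 : (nuQ q s p : ℝ) < p := by exact_mod_cast ha p hp
  unfold locQ
  refine div_pos ?_ (pow_pos ?_ _)
  · rw [sub_pos, div_lt_one (by linarith)]
    exact h1
  · rw [sub_pos, div_lt_one (by linarith)]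
    exact hp1

end Pool.Agent.Q241.LQ

namespace Pool.Agent.Q145.LQ

open Finset Filter Topology
open Pool.Agent.Q241.LQ
open Pool.Agent.W468.ConjF (SJ SJ_cauchy js_abs)

/-- **CONVQ** -/
theorem t_CONVQ : S_CONVQ := by
  classical
  intro K q s hdeg hΔ hprop ha
  obtain ⟨z1, hz1⟩ := nu_large q s hdeg hΔ hprop
  set z : ℕ := z1 + 4 * K + 2 with hz
  have hSJ : ∀ i, ∃ L : ℝ, Tendsto (fun N => SJ (dsc q s i) z N) atTop (𝓝 L) :=
    fun i => SJ_cauchy _ (hΔ i) z
  choose L hL using hSJ
  set J : ℕ → ℝ := fun n => ∑ i, (jacobiSym (dsc q s i) n : ℝ) with hJ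
  have hJK : ∀ n, |J n| ≤ K := by
    intro n
    rw [hJ]
    simp only
    refine (abs_sum_le_sum_abs _ _).trans ?_
    refine (sum_le_sum fun i _ => js_abs (dsc q s i) n).trans ?_
    simp
  set g : ℕ → ℝ := fun n => if n.Prime ∧ z < n then Real.log (locQ q s n) + J n / n else 0 with hg
  set B : ℝ := 8 * (K : ℝ) ^ 2 + 2 * K with hB
  have hB0 : 0 ≤ B := by positivity
  have hgb : ∀ n, ‖g n‖ ≤ B / (n : ℝ) ^ 2 := by
    intro n
    rw [hg]
    simp only
    split_ifs with h
    · obtain ⟨hp, hn⟩ := h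
      have hnK : (4 : ℝ) * K + 2 ≤ n := by
        have : z1 + 4 * K + 2 ≤ n := hn.le
        have h1 : 4 * K + 2 ≤ n := by omega
        exact_mod_cast h1
      have hK0 : (0 : ℝ) ≤ K := Nat.cast_nonneg _
      have hn0 : (0 : ℝ) < n := by linarith
      have hnu : (nuQ q s n : ℝ) = K + J n := by
        have h1 := hz1 n hp (by omega)
        have h2 : ((nuQ q s n : ℤ) : ℝ) = ((∑ i, (1 + jacobiSym (dsc q s i) n) : ℤ) : ℝ) := by rw [h1]
        push_cast at h2
        rw [h2, sum_add_distrib]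
        simp [hJ]
      have hJn := hJK n
      have hx1 : |((K : ℝ) + J n) / n| ≤ 1 / 2 := by
        rw [abs_div, abs_of_pos hn0, div_le_iff₀ hn0]
        have h1 : |(K : ℝ) + J n| ≤ K + K := (abs_add_le _ _).trans (by
          rw [abs_of_nonneg hK0]
          linarith)
        linarith
      have hx2 : |(1 : ℝ) / n| ≤ 1 / 2 := by
        rw [abs_div, abs_one, abs_of_pos hn0, div_le_iff₀ hn0]
        linarith
      have l1 := log_one_sub hx1
      have l2 := log_one_sub hx2
      have e1 : Real.log (locQ q s n) = Real.log (1 - ((K : ℝ) + J n) / n) - K * Real.log (1 - 1 / (n : ℝ)) := by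
        have hn1 : (1 : ℝ) < n := by exact_mod_cast hp.one_lt
        have h1 : (nuQ q s n : ℝ) < n := by exact_mod_cast ha n hp
        unfold locQ
        rw [Real.log_div, Real.log_pow, hnu]
        · refine (sub_pos.mpr ?_).ne'
          rw [div_lt_one (by linarith)]
          exact h1
        · refine (pow_pos (sub_pos.mpr ?_) _).ne'
          rw [div_lt_one (by linarith)]
          exact hn1
      have e2 : Real.log (locQ q s n) + J n / n = (Real.log (1 - ((K : ℝ) + J n) / n) + ((K : ℝ) + J n) / n) -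
          K * (Real.log (1 - 1 / (n : ℝ)) + 1 / (n : ℝ)) := by
        rw [e1]
        ring
      rw [Real.norm_eq_abs, e2]
      refine (abs_sub _ _).trans ?_
      rw [abs_mul, abs_of_nonneg hK0]
      have h1 : 2 * (((K : ℝ) + J n) / n) ^ 2 ≤ 8 * (K : ℝ) ^ 2 / (n : ℝ) ^ 2 := by
        rw [div_pow, ← mul_div_assoc]
        refine div_le_div_of_nonneg_right ?_ (by positivity)
        have h2 : |(K : ℝ) + J n| ≤ K + K := (abs_add_le _ _).trans (by
          rw [abs_of_nonneg hK0]
          linarith)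
        have h3 : ((K : ℝ) + J n) ^ 2 ≤ (K + K) ^ 2 := by
          rw [← sq_abs ((K : ℝ) + J n)]
          exact pow_le_pow_left₀ (abs_nonneg _) h2 2
        nlinarith
      have h2 : (K : ℝ) * (2 * (1 / (n : ℝ)) ^ 2) = 2 * K / (n : ℝ) ^ 2 := by
        field_simp
      have h3 : (K : ℝ) * |Real.log (1 - 1 / (n : ℝ)) + 1 / (n : ℝ)| ≤ 2 * K / (n : ℝ) ^ 2 := by
        rw [← h2]
        exact mul_le_mul_of_nonneg_left l2 hK0
      have h4 : B / (n : ℝ) ^ 2 = 8 * (K : ℝ) ^ 2 / (n : ℝ) ^ 2 + 2 * K / (n : ℝ) ^ 2 := by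
        rw [hB, add_div]
      rw [h4]
      exact add_le_add (l1.trans h1) h3
    · rw [norm_zero]
      positivity
  have hsum : Summable g := by
    apply Summable.of_norm_bounded _ hgb
    have := (Real.summable_one_div_nat_pow (p := 2)).2 (by norm_num)
    simpa [div_eq_mul_inv] using this.mul_left B
  obtain ⟨G, hG⟩ := hsum
  have hG' : Tendsto (fun N => ∑ n ∈ range (N + 1), g n) atTop (𝓝 G) :=
    hG.tendsto_sum_nat.comp (tendsto_add_atTop_nat 1)
  have hlim1 : Tendsto (fun N => ∑ n ∈ range (N + 1), g n - ∑ i, SJ (dsc q s i) z N) atTop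
      (𝓝 (G - ∑ i, L i)) := hG'.sub (tendsto_finsetSum _ fun i _ => hL i)
  have hprod : ∀ N, Real.log (∏ p ∈ (Ioc z N).filter Nat.Prime, locQ q s p) =
      ∑ n ∈ range (N + 1), g n - ∑ i, SJ (dsc q s i) z N := by
    intro N
    have h1 : ∑ i, SJ (dsc q s i) z N = ∑ p ∈ (Ioc z N).filter Nat.Prime, J p / p := by
      unfold SJ
      rw [sum_comm]
      refine sum_congr rfl fun p _ => ?_
      rw [hJ]
      simp only
      rw [sum_div]
    rw [h1, Real.log_prod, eq_sub_iff_add_eq, ← sum_add_distrib, hg]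
    · simp only
      rw [← sum_filter]
      apply sum_congr _ (fun _ _ => rfl)
      ext p
      simp only [mem_filter, mem_Ioc, mem_range]
      constructor
      · rintro ⟨h1, h2⟩
        exact ⟨by omega, h2, h1.1⟩
      · rintro ⟨h1, h2, h3⟩
        exact ⟨⟨h3, by omega⟩, h2⟩
    · intro p hp
      rw [mem_filter] at hp
      exact (loc_pos q s ha hp.2).ne'
  have hpos : ∀ N, 0 < ∏ p ∈ (Ioc z N).filter Nat.Prime, locQ q s p := fun N =>
    prod_pos fun p hp => loc_pos q s ha (mem_filter.mp hp).2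
  have hlim2 : Tendsto (fun N => ∏ p ∈ (Ioc z N).filter Nat.Prime, locQ q s p) atTop
      (𝓝 (Real.exp (G - ∑ i, L i))) := by
    have h1 := (Real.continuous_exp.tendsto _).comp hlim1
    refine h1.congr fun N => ?_
    rw [Function.comp_apply, ← hprod, Real.exp_log (hpos N)]
  have hz0 : 0 < singPQ q s z := prod_pos fun p hp => loc_pos q s ha (mem_filter.mp hp).2
  have hlim : Tendsto (singPQ q s) atTop (𝓝 (singPQ q s z * Real.exp (G - ∑ i, L i))) := by
    refine (hlim2.const_mul (singPQ q s z)).congr' ?_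
    filter_upwards [eventually_ge_atTop z] with N hN
    unfold singPQ
    rw [← prod_union]
    · refine prod_congr ?_ fun _ _ => rfl
      ext p
      simp only [mem_union, mem_filter, mem_Icc, mem_Ioc]
      constructor
      · rintro (⟨⟨h1, h2⟩, h3⟩ | ⟨⟨h1, h2⟩, h3⟩)
        · exact ⟨⟨h1, by omega⟩, h3⟩
        · exact ⟨⟨by omega, h2⟩, h3⟩
      · rintro ⟨⟨h1, h2⟩, h3⟩
        by_cases h4 : p ≤ z
        · exact Or.inl ⟨⟨h1, h4⟩, h3⟩
        · exact Or.inr ⟨⟨by omega, h2⟩, h3⟩
    · rw [disjoint_left]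
      intro p h1 h2
      simp only [mem_filter, mem_Icc, mem_Ioc] at h1 h2
      omega
  have hs : singQ q s = singPQ q s z * Real.exp (G - ∑ i, L i) := hlim.limUnder_eq
  rw [hs]
  exact ⟨hlim, mul_pos hz0 (Real.exp_pos _)⟩

end Pool.Agent.Q145.LQ
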